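import Pool.Agent.R678.SR.B
import Pool.Agent.R678.SR.C

/-!
MP_351138_al, Q1 (partial, negative): no field of characteristic two, and no field with three
elements, has the property that rank and symmetric rank agree for all symmetric tensors of order
three.
-/

universe u

noncomputable section

namespace Pool.Agent.Results.MP_351138_al.CharacteristicTwo

open Pool.Agent.R678.SR

variable {F : Type u} [Field F] {I : Type}

/-- simple tensor: `T i j k = a i * b j * c k` -/
def IsSimple (T : I → I → I → F) : Prop :=
  ∃ a b c : I → F, ∀ i j k, T i j k = a i * b j * c k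

/-- symmetric simple tensor: `T i j k = v i * v j * v k` -/
def IsSymmetricSimple (T : I → I → I → F) : Prop :=
  ∃ v : I → F, ∀ i j k, T i j k = v i * v j * v k

/-- symmetric tensor: invariant under all permutations of the three indices -/
def IsSymmetric (T : I → I → I → F) : Prop :=
  ∀ i j k, T i j k = T j i k ∧ T i j k = T i k j

/-- concise tensor: no nontrivial linear combination of the slices `T i` vanishes -/
def IsConcise [Fintype I] (T : I → I → I → F) : Prop :=
  ∀ x : I → F, (∀ j k, ∑ i, x i * T i j k = 0) → x = 0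

/-- `rank_F T`: the least `r` such that `T` is a sum of `r` simple tensors -/
def rank (T : I → I → I → F) : ℕ∞ :=
  sInf {x : ℕ∞ | ∃ r : ℕ, x = (r : ℕ∞) ∧ ∃ S : Fin r → I → I → I → F,
    (∀ s, IsSimple (S s)) ∧ T = ∑ s, S s}

/-- `srank_F T`: the least `r` such that `T = ∑ s, c s • S s` with `r` symmetric simple tensors
`S s` and scalars `c s`, and `⊤` if there is no such expression -/
def srank (T : I → I → I → F) : ℕ∞ :=
  sInf {x : ℕ∞ | ∃ r : ℕ, x = (r : ℕ∞) ∧ ∃ (c : Fin r → F) (S : Fin r → I → I → I → F),
    (∀ s, IsSymmetricSimple (S s)) ∧ T = ∑ s, c s • S s}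

theorem rank_le {ι : Type} [Fintype ι] (T : I → I → I → F) (a b c : ι → I → F)
    (h : ∀ i j k, T i j k = ∑ s, a s i * b s j * c s k) : rank T ≤ Fintype.card ι := by
  apply sInf_le
  let e := (Fintype.equivFin ι).symm
  refine ⟨Fintype.card ι, rfl, fun s i j k => a (e s) i * b (e s) j * c (e s) k,
    fun s => ⟨a (e s), b (e s), c (e s), fun _ _ _ => rfl⟩, ?_⟩
  funext i j k
  rw [h i j k]
  simp only [Finset.sum_apply]
  exact (Equiv.sum_comp e (fun s => a s i * b s j * c s k)).symm

theorem le_srank {m : ℕ} (d : ℕ) (T : I → I → I → F)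
    (h : ∀ (r : ℕ) (l : Fin r → F) (v : Fin r → I → F),
      (∀ i j k, T i j k = ∑ s, l s * (v s i * v s j * v s k)) → m ≤ r + d) :
    (m : ℕ∞) ≤ srank T + d := by
  have key : ((m - d : ℕ) : ℕ∞) ≤ srank T := by
    apply le_sInf
    rintro x ⟨r, rfl, c, S, hS, hT⟩
    choose v hv using hS
    have := h r c v (fun i j k => by
      rw [hT]
      simp only [Finset.sum_apply, Pi.smul_apply, smul_eq_mul, hv])
    have h2 : m - d ≤ r := by omega
    exact_mod_cast h2
  have h3 : (m : ℕ∞) ≤ ((m - d : ℕ) : ℕ∞) + d := by
    have : m ≤ (m - d) + d := by omega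
    exact_mod_cast this
  exact h3.trans (by gcongr)

/-- (1) Over every field of characteristic two, `srank T ≥ 2 |I| - rank (T i j j)` for every
concise symmetric tensor `T` of order three, where `(T i j j)` is regarded as an `I × I` matrix.
(2) Over every field of characteristic two and for every `m` there is a symmetric
`3m × 3m × 3m` tensor of rank at most `5m` and symmetric rank at least `6m`.
(3) Over a field with three elements there is a symmetric `2 × 2 × 2` tensor whose rank is smaller
than its symmetric rank. -/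
theorem result :
    (∀ (F : Type u) [Field F] [CharP F 2] (I : Type) [Fintype I] (T : I → I → I → F),
      IsSymmetric T → IsConcise T →
      2 * (Fintype.card I : ℕ∞) ≤ srank T + (Matrix.rank (Matrix.of fun i j => T i j j) : ℕ∞)) ∧
    (∀ (F : Type u) [Field F] [CharP F 2] (m : ℕ),
      ∃ (I : Type) (_ : Fintype I) (T : I → I → I → F), Fintype.card I = 3 * m ∧
        IsSymmetric T ∧ rank T ≤ 5 * m ∧ 6 * m ≤ srank T) ∧
    (∀ (F : Type u) [Field F], Nat.card F = 3 →
      ∃ T : Fin 2 → Fin 2 → Fin 2 → F, IsSymmetric T ∧ rank T < srank T) := by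
  refine ⟨?_, ?_, ?_⟩
  · intro F _ _ I _ T _ hT
    classical
    have h1 : ((2 * Fintype.card I : ℕ) : ℕ∞) ≤
        srank T + (Matrix.rank (Matrix.of fun i j => T i j j) : ℕ∞) := by
      apply le_srank
      intro r l v h
      exact two_mul_card_le T hT l v h
    exact_mod_cast h1
  · intro F _ _ m
    refine ⟨Fin m × Fin 3, inferInstance, Sm F m, by simp [mul_comm], Sm_symm F m, ?_, ?_⟩
    · have h1 := rank_le (Sm F m) _ _ _ (Sm_decomp F m)
      simp only [Fintype.card_prod, Fintype.card_fin] at h1
      rw [mul_comm]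
      exact_mod_cast h1
    · have h1 : ((6 * m : ℕ) : ℕ∞) ≤ srank (Sm F m) + ((0 : ℕ) : ℕ∞) := by
        apply le_srank
        intro r l v h
        have h2 := two_mul_card_le (Sm F m) (Sm_concise F m) l v h
        have h3 : (Matrix.of fun i j => Sm F m i j j) = 0 := by
          ext i j
          exact Sm_alt F m i j
        rw [h3, Matrix.rank_zero] at h2
        simp only [Fintype.card_prod, Fintype.card_fin] at h2
        omega
      simpa using h1
  · intro F _ h3
    refine ⟨T3 F, ?_, ?_⟩
    · intro i j k
      fin_cases i <;> fin_cases j <;> fin_cases k <;> simp [T3]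
    · have h1 := rank_le (T3 F) _ _ _ (T3_decomp F)
      have h2' : ((4 : ℕ) : ℕ∞) ≤ srank (T3 F) + ((0 : ℕ) : ℕ∞) := by
        apply le_srank
        intro r l v h
        exact no_decomp3 h3 l v h
      rw [Fintype.card_fin] at h1
      refine lt_of_le_of_lt h1 (lt_of_lt_of_le ?_ (by simpa using h2'))
      exact_mod_cast (by norm_num : (3 : ℕ) < 4)

end Pool.Agent.Results.MP_351138_al.CharacteristicTwo
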